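import Pool.Agent.Helper45.LGB.St

/-!
# Project LGB, module CON: non-zero iterated commutators are connected
-/

set_option autoImplicit false

namespace Pool.Agent.Helper22.LGB

open Pool.Agent.Helper45.LGB

private theorem ad_zero {p : ℕ} {ι V : Type} [AddCommGroup V] [Module (ZMod p) V]
    (f : ι → Module.End (ZMod p) V) (u : List ι) : ad f u 0 = 0 := by
  induction u with
  | nil => rfl
  | cons y u ih =>
    have h : ad f (y :: u) 0 = ad f u (cb (f y) 0) := rfl
    have h0 : cb (f y) 0 = 0 := by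
      unfold cb
      rw [mul_zero, zero_mul, sub_zero]
    rw [h, h0, ih]

/-- Module CON. -/
theorem hCON (hLST : StLST) (hCHA : StCHA) : StCON := by
  intro p ι E V _ _ f hE hC s d hne y hy r n hnr
  refine hCHA ι E hE s d ?_ y hy r n hnr
  intro d₁ z d₂ hd
  by_contra hcon
  apply hne
  obtain ⟨-, -, -, h4, h5, -, h7, -, -⟩ := hLST p ι V f (insert s (ltr d₁))
  have hcomm : ∀ a ∈ (insert s (ltr d₁) : Set ι), f z * f a = f a * f z := by
    intro a ha
    have hna : ¬ E a z := fun h => hcon ⟨a, by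
      rcases Set.mem_insert_iff.1 ha with h1 | h1
      · exact Or.inl h1
      · exact Or.inr h1, h⟩
    exact (hC a z hna).symm
  have hLam : Lam f (insert s (ltr d₁)) (ad f d₁ (f s)) :=
    h5 d₁ (f s) (fun i hi => Set.mem_insert_of_mem _ hi) (Lam.gen s (Set.mem_insert _ _))
  have h0 : cb (f z) (ad f d₁ (f s)) = 0 := by
    unfold cb
    rw [h4 (f z) hcomm _ hLam, sub_self]
  rw [hd, h7]
  change ad f d₂ (cb (f z) (ad f d₁ (f s))) = 0
  rw [h0, ad_zero]

end Pool.Agent.Helper22.LGB
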